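import Pool.Agent.helper68.GB.Spec

set_option autoImplicit false

namespace Pool.Agent.GB

open Pool.Agent.helper58.DC Pool.Agent.DI Pool.Agent.GR Pool.Agent.OB Pool.Agent.DR Pool.Agent.FI Pool.Agent.FI3 Pool.Agent.FI4 Pool.Agent.LE Pool.Agent.BR

/-- In a finite `p`-group `y ^ |P : H| ∈ H`. -/
theorem CLZ_powA {P : Type} [Group P] [Finite P] (hn : Group.IsNilpotent P) : ∀ (m : ℕ) (H : Subgroup P), H.index ≤ m →
    ∀ y : P, y ^ H.index ∈ H := by
  intro m
  induction m with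
  | zero =>
    intro H hH y
    have h1 : H.index ≠ 0 := Subgroup.FiniteIndex.index_ne_zero
    omega
  | succ m ih =>
    intro H hH y
    by_cases h0 : H = ⊤
    · rw [h0]; exact Subgroup.mem_top _
    · have h1 : H < Subgroup.normalizer (H : Set P) :=
        Group.normalizerCondition_of_isNilpotent H (lt_top_iff_ne_top.2 h0)
      obtain ⟨N, hN⟩ : ∃ N : Subgroup P, N = Subgroup.normalizer (H : Set P) := ⟨_, rfl⟩
      rw [← hN] at h1
      have h2 := Subgroup.index_strictAnti h1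
      have h3 : y ^ N.index ∈ N := ih N (by omega) y
      have h4 := Subgroup.relIndex_mul_index h1.le
      have h5 : (H.subgroupOf N).Normal := by
        subst hN
        exact Subgroup.normal_in_normalizer
      have h6 := Subgroup.pow_index_mem (H.subgroupOf N) (⟨y ^ N.index, h3⟩ : N)
      have h7 : (y ^ N.index) ^ (H.relIndex N) ∈ H := h6
      rw [← pow_mul, mul_comm, h4] at h7
      exact h7

theorem CLZ_powB {G : Type} [Group G] [Finite G] {p : ℕ} (hp : p.Prime) (H K : Subgroup G) (hK : IsPGroup p K)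
    (hH : H ≤ K) (y : G) (hy : y ∈ K) : y ^ (H.relIndex K) ∈ H := by
  have : Fact p.Prime := ⟨hp⟩
  have h1 := CLZ_powA hK.isNilpotent _ (H.subgroupOf K) le_rfl ⟨y, hy⟩
  have h2 : y ^ (H.subgroupOf K).index ∈ H := h1
  exact h2

theorem CLZ_card {G : Type} [Group G] (H K : Subgroup G) (hH : H ≤ K) : Nat.card H * H.relIndex K = Nat.card K := by
  have h := Subgroup.relIndex_mul_relIndex (⊥ : Subgroup G) H K bot_le hH
  rw [Subgroup.relIndex_bot_left, Subgroup.relIndex_bot_left] at h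
  exact h

theorem CLZ_cardcj {G : Type} [Group G] (g : G) (K : Subgroup G) : Nat.card (cjS g K) = Nat.card K :=
  Subgroup.card_map_of_injective (MulAut.conj g).injective

theorem CLZ_mem {G : Type} [Group G] (u x : G) : x ∈ Cz (⊤ : Subgroup G) u ↔ u * x = x * u := by
  rw [mem_Cz]
  exact ⟨fun h => h.2, fun h => ⟨Subgroup.mem_top _, h⟩⟩

theorem CLZ_memcz {G : Type} [Group G] (D : Subgroup G) (x : G) : x ∈ cz D ↔ ∀ d ∈ D, d * x = x * d := by
  rw [Subgroup.mem_centralizer_iff]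
  rfl

theorem CLZ_cpow {G : Type} [Group G] (a y : G) (n : ℕ) : (a⁻¹ * y * a) ^ n = a⁻¹ * y ^ n * a := by
  have h := conj_pow (a := a⁻¹) (b := y) (i := n)
  rw [inv_inv] at h
  exact h

/-- Elements of the normaliser from the centraliser of a cyclic group. -/
theorem CLZ_nz {G : Type} [Group G] (u : G) (R : Subgroup G) (h : R ≤ Cz (⊤ : Subgroup G) u) : R ≤ nz (Subgroup.zpowers u) := by
  intro r hr
  have h1 := (CLZ_mem u r).1 (h hr)
  rw [Subgroup.mem_normalizer_iff]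
  intro y
  have h2 : ∀ k : ℤ, r * u ^ k * r⁻¹ = u ^ k := by
    intro k
    have h3 : Commute u r := h1
    have h4 := h3.zpow_left k
    rw [← h4.eq]
    group
  constructor
  · rintro ⟨k, rfl⟩
    exact ⟨k, (h2 k).symm⟩
  · rintro ⟨k, hk⟩
    refine ⟨k, ?_⟩
    have h5 := h2 k
    have h6 : r * u ^ k * r⁻¹ = r * y * r⁻¹ := by rw [h5]; exact hk
    exact mul_left_cancel (mul_right_cancel h6)

theorem CLZ (hUQT : UQT_stmt) (hNSB : NSB_stmt) (hDFZ : DFZ_stmt) (hCJR : CJR_stmt) (hCNTL : CNTL_stmt) (hREP : REP_stmt) :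
    CLZ_stmt := by
  intro p M hS G _ _ D T x θ χ hR q hq hT
  have hp := hS.pr
  have hDp : IsPGroup p D := hR.dfa.pgrp
  have hA : ∀ d ∈ D, d ^ q ∈ cz D := by
    intro d hd
    have h1 := CLZ_powB hp (D ⊓ cz D) D hDp inf_le_left d hd
    obtain ⟨m, hm⟩ := hq
    rw [hm, pow_mul]
    exact (cz D).pow_mem h1.2 m
  have hTD : T ≤ D := by
    intro c hc
    obtain ⟨d, hd, rfl⟩ := (hT c).1 hc
    exact D.pow_mem hd _
  have hTC : T ≤ cz D := by
    intro c hc
    obtain ⟨d, hd, rfl⟩ := (hT c).1 hc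
    rw [pow_two, pow_mul]
    exact (cz D).pow_mem (hA d hd) _
  refine ⟨hR, hTD, hTC, ?_, ?_⟩
  · intro n hn t ht
    obtain ⟨d, hd, rfl⟩ := (hT t).1 ht
    rw [hT]
    exact ⟨n * d * n⁻¹, (Subgroup.mem_normalizer_iff.1 hn d).1 hd, conj_pow⟩
  · intro u hu β hβ s hs hSB
    obtain ⟨eθ, heθ⟩ : ∃ e, e = eS (cz D) (Bl M (cz D) θ) := ⟨_, rfl⟩
    rw [← heθ] at hβ
    have hPai : Pai p M D eθ := ⟨hDp, θ, hR.th, heθ.symm⟩
    obtain ⟨hU1, hU2, hU3, hU4, hU5⟩ := hUQT p M hS G D eθ hPai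
    obtain ⟨hzD, hβe⟩ := hU4 _ β hβ
    have hcz : cz (Subgroup.zpowers u) = Cz (⊤ : Subgroup G) u := Pool.Agent.LE.cz_zp u
    obtain ⟨L, hL⟩ : ∃ L : Subgroup G, L = Cz (⊤ : Subgroup G) u := ⟨_, rfl⟩
    rw [← hL] at hcz hSB
    have hmL : ∀ y : G, y ∈ L ↔ u * y = y * u := by
      intro y; rw [hL]; exact CLZ_mem u y
    have hβB : β ∈ BB M L := by
      have h1 := (hU2 _ hzD).1.bb
      rw [← hβe, hcz] at h1
      exact h1
    obtain ⟨ψ, hψ⟩ : ∃ ψ, ψ = rep M L β := ⟨_, rfl⟩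
    rw [← hψ] at hSB
    have hψI : ψ ∈ IrrOn L := by
      rw [hψ]; exact ((hREP p M hS G L).2.1 β hβB).1
    -- the conjugate defect group
    have hR' := hCJR p M hS G D x θ χ hR s⁻¹
    obtain ⟨D', hD'⟩ : ∃ D' : Subgroup G, D' = cjS s⁻¹ D := ⟨_, rfl⟩
    rw [← hD'] at hR'
    have hmD' : ∀ y : G, y ∈ D' ↔ s * y * s⁻¹ ∈ D := by
      intro y; rw [hD', mem_cjS, inv_inv]
    have huD' : u ∈ D' := (hmD' u).2 (hTD hs)
    have hD'L : D' ≤ L := by
      intro y hy
      rw [hmL]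
      have h1 := (CLZ_memcz D _).1 (hTC hs) _ ((hmD' y).1 hy)
      have h2 : y * u = u * y := by
        calc y * u = s⁻¹ * ((s * y * s⁻¹) * (s * u * s⁻¹)) * s := by group
          _ = s⁻¹ * ((s * u * s⁻¹) * (s * y * s⁻¹)) * s := by rw [h1]
          _ = _ := by group
      exact h2.symm
    have hcD'L : cz D' ≤ L := by
      intro y hy
      rw [hmL]
      exact (CLZ_memcz D' y).1 hy u huD'
    obtain ⟨x', -, -, hDef⟩ := hDFZ p M hS G D' _ _ χ hR' L hD'L hcD'L ψ hψI hSB.symm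
    have hD'p : IsPGroup p D' := hDef.pg
    have hD'c : Nat.card D' = Nat.card D := by rw [hD']; exact CLZ_cardcj _ _
    -- the first step
    obtain ⟨E, hE⟩ : ∃ E : Subgroup G, E = D ⊓ L := ⟨_, rfl⟩
    have hED : E ≤ D := by rw [hE]; exact inf_le_left
    have hEL : E ≤ L := by rw [hE]; exact inf_le_right
    have huL : u ∈ L := (hmL u).2 rfl
    have huE : u ∈ E := by rw [hE]; exact ⟨hu, huL⟩
    have hzE : Subgroup.zpowers u ≤ E := by
      rw [Subgroup.zpowers_le]; exact huE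
    have hN1 := hU3 (Subgroup.zpowers u) E hzE hED (CLZ_nz u E (by rw [← hL]; exact hEL))
    rw [← hβe] at hN1
    have hczE : cz E ≤ L := by
      intro y hy
      rw [hmL]
      exact (CLZ_memcz E y).1 hy u huE
    have hSB1 := (hNSB p M hS G _ _ _ _).1 hN1 L hEL (by rw [hcz])
    rw [hcz, ← hψ] at hSB1
    have hη1 : rep M (cz E) (un p M D eθ E) ∈ IrrOn (L ⊓ cz E) := by
      rw [inf_eq_right.2 hczE]
      exact ((hREP p M hS G (cz E)).2.1 _ (hU2 E hED).1.bb).1
    obtain ⟨l, hl, hlE⟩ := hCNTL p M hS G L E (hDp.to_le hED) hEL _ hη1 ψ hSB1 D' x' hDef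
    obtain ⟨d, hd, hdv⟩ := (hT _).1 hs
    have hyD' : s⁻¹ * d * s ∈ D' := by
      rw [hmD']
      have h1 : s * (s⁻¹ * d * s) * s⁻¹ = d := by group
      rw [h1]; exact hd
    obtain ⟨y, hy⟩ : ∃ y, y = s⁻¹ * d * s := ⟨_, rfl⟩
    rw [← hy] at hyD'
    have hyu : y ^ (q ^ 2) = u := by
      rw [hy, CLZ_cpow, hdv]
      group
    have hlE' : cjS l E ≤ D' := by
      intro z hz
      rw [mem_cjS] at hz
      have h1 := hlE _ hz
      have h2 : l * (l⁻¹ * z * l) * l⁻¹ = z := by group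
      rwa [h2] at h1
    have hidx : (cjS l E).relIndex D' ∣ q := by
      have h1 := CLZ_card _ _ hlE'
      have h2 := CLZ_card _ _ hED
      rw [CLZ_cardcj, hD'c, ← h2] at h1
      have h3 : 0 < Nat.card E := Nat.card_pos
      have h4 := Nat.eq_of_mul_eq_mul_left h3 h1
      rw [h4]
      refine dvd_trans (Subgroup.relIndex_dvd_of_le_left D ?_) hq
      rw [hE]
      intro z hz
      exact ⟨hz.1, (hmL z).2 ((CLZ_memcz D z).1 hz.2 u hu)⟩
    have hyq : y ^ q ∈ cjS l E := by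
      have h1 := CLZ_powB hp _ D' hD'p hlE' y hyD'
      obtain ⟨m, hm⟩ := hidx
      rw [hm, pow_mul]
      exact (cjS l E).pow_mem h1 m
    rw [mem_cjS] at hyq
    have hlu := (hmL l).1 hl
    have hzq : (l⁻¹ * y ^ q * l) ^ q = u := by
      rw [CLZ_cpow, ← pow_mul, ← pow_two, hyu]
      have h1 : l⁻¹ * u * l = u := by
        calc l⁻¹ * u * l = l⁻¹ * (u * l) := by group
          _ = l⁻¹ * (l * u) := by rw [hlu]
          _ = u := by group
      exact h1
    have hucz : u ∈ cz D := by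
      rw [← hzq]
      exact hA _ (hED hyq)
    -- the second step
    have hDL : D ≤ L := by
      intro z hz
      rw [hmL]
      exact ((CLZ_memcz D u).1 hucz z hz).symm
    have hcDL : cz D ≤ L := by
      intro z hz
      rw [hmL]
      exact (CLZ_memcz D z).1 hz u hu
    have hN2 := hU3 (Subgroup.zpowers u) D hzD le_rfl (CLZ_nz u D (by rw [← hL]; exact hDL))
    rw [← hβe, hU1] at hN2
    have hSB2 := (hNSB p M hS G _ _ _ _).1 hN2 L hDL (by rw [hcz])
    rw [hcz, ← hψ] at hSB2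
    have hη2 : rep M (cz D) eθ ∈ IrrOn (L ⊓ cz D) := by
      rw [inf_eq_right.2 hcDL]
      exact ((hREP p M hS G (cz D)).2.1 _ hPai.bb).1
    obtain ⟨k, hk, hkD⟩ := hCNTL p M hS G L D hDp hDL _ hη2 ψ hSB2 D' x' hDef
    have hkD' : cjS k D ≤ D' := by
      intro z hz
      rw [mem_cjS] at hz
      have h1 := hkD _ hz
      have h2 : k * (k⁻¹ * z * k) * k⁻¹ = z := by group
      rwa [h2] at h1
    have hkeq : cjS k D = D' := by
      refine Subgroup.eq_of_le_of_card_ge hkD' ?_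
      rw [CLZ_cardcj, hD'c]
    rw [← hkeq, mem_cjS] at hyD'
    rw [hT]
    refine ⟨k⁻¹ * y * k, hyD', ?_⟩
    rw [CLZ_cpow, hyu]
    have hku := (hmL k).1 hk
    calc k⁻¹ * u * k = k⁻¹ * (u * k) := by group
      _ = k⁻¹ * (k * u) := by rw [hku]
      _ = u := by group

end Pool.Agent.GB
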